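import Mathlib

/-! Tools: algebraic numbers, their automorphisms and divisibility by algebraic integers. -/

set_option autoImplicit false

open Polynomial IntermediateField

namespace Pool.Agent.Lib.MP_b164a8_nt.DK

variable {A : Type} [Field A] [CharZero A]

/-- divisibility in the ring of algebraic integers -/
def Dv (x y : A) : Prop := ∃ c : A, IsIntegral ℤ c ∧ y = x * c

theorem int_int (n : ℤ) : IsIntegral ℤ (n : A) := isIntegral_algebraMap (R := ℤ) (x := n)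

theorem int_nat (n : ℕ) : IsIntegral ℤ (n : A) := by simpa using int_int (A := A) n

theorem int_aut (σ : A ≃ₐ[ℚ] A) {x : A} (h : IsIntegral ℤ x) : IsIntegral ℤ (σ x) :=
  h.map (σ.toAlgHom.restrictScalars ℤ)

theorem int_root {x : A} {n : ℕ} (hn : 0 < n) (h : x ^ n = 1) : IsIntegral ℤ x :=
  IsIntegral.of_pow hn (h ▸ isIntegral_one)

theorem Dv.trans {x y z : A} (h : Dv x y) (h' : Dv y z) : Dv x z := by
  obtain ⟨c, hc, rfl⟩ := h
  obtain ⟨d, hd, rfl⟩ := h'
  exact ⟨c * d, hc.mul hd, by ring⟩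

theorem Dv.mul {x y u v : A} (h : Dv x y) (h' : Dv u v) : Dv (x * u) (y * v) := by
  obtain ⟨c, hc, rfl⟩ := h
  obtain ⟨d, hd, rfl⟩ := h'
  exact ⟨c * d, hc.mul hd, by ring⟩

theorem Dv.add {x y z : A} (h : Dv x y) (h' : Dv x z) : Dv x (y + z) := by
  obtain ⟨c, hc, rfl⟩ := h
  obtain ⟨d, hd, rfl⟩ := h'
  exact ⟨c + d, hc.add hd, by ring⟩

theorem Dv.sub {x y z : A} (h : Dv x y) (h' : Dv x z) : Dv x (y - z) := by
  obtain ⟨c, hc, rfl⟩ := h
  obtain ⟨d, hd, rfl⟩ := h'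
  exact ⟨c - d, hc.sub hd, by ring⟩

theorem Dv.right {x y c : A} (h : Dv x y) (hc : IsIntegral ℤ c) : Dv x (y * c) :=
  h.trans ⟨c, hc, rfl⟩

theorem Dv.zero (x : A) : Dv x 0 := ⟨0, isIntegral_zero, by ring⟩

theorem Dv.sum {ι : Type} {x : A} (s : Finset ι) (f : ι → A) (h : ∀ i ∈ s, Dv x (f i)) :
    Dv x (∑ i ∈ s, f i) :=
  Finset.sum_induction f (Dv x) (fun _ _ => Dv.add) (Dv.zero x) h

theorem Dv.prod {x : A} (n : ℕ) (f : ℕ → A) (h : ∀ i, Dv x (f i)) :
    Dv (x ^ n) (∏ i ∈ Finset.range n, f i) := by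
  induction n with
  | zero => exact ⟨1, isIntegral_one, by simp⟩
  | succ n ih => rw [pow_succ, Finset.prod_range_succ]; exact ih.mul (h n)

theorem rat_int {q : ℚ} (h : IsIntegral ℤ (q : A)) : ∃ n : ℤ, (n : ℚ) = q := by
  have h' : IsIntegral ℤ (algebraMap ℚ A q) := h
  rw [isIntegral_algebraMap_iff (algebraMap ℚ A).injective] at h'
  exact IsIntegrallyClosed.isIntegral_iff.mp h'

theorem Dv.int {m n : ℤ} (h : Dv (m : A) (n : A)) : m ∣ n := by
  obtain ⟨c, hc, h⟩ := h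
  rcases eq_or_ne m 0 with rfl | hm
  · have : (n : A) = 0 := by simpa using h
    have : n = 0 := by exact_mod_cast this
    simp [this]
  · have hm' : (m : A) ≠ 0 := by exact_mod_cast hm
    have hq : c = (((n : ℚ) / m : ℚ) : A) := by
      push_cast
      field_simp
      exact (mul_comm _ _).trans h.symm
    obtain ⟨k, hk⟩ := rat_int (hq ▸ hc)
    refine ⟨k, ?_⟩
    have hm'' : (m : ℚ) ≠ 0 := by exact_mod_cast hm
    have : (n : ℚ) = m * k := by rw [hk]; field_simp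
    exact_mod_cast this

theorem dv_pow {x : A} (hx : IsIntegral ℤ x) (k : ℕ) : Dv (1 - x) (1 - x ^ k) :=
  ⟨∑ i ∈ Finset.range k, x ^ i, IsIntegral.sum _ fun i _ => hx.pow i,
    (mul_neg_geom_sum x k).symm⟩

theorem dv_order {x : A} {m : ℕ} (hm : 0 < m) (h : x ^ m = 1) (h1 : x ≠ 1) :
    Dv (1 - x) (m : A) := by
  have h0 : ∑ i ∈ Finset.range m, x ^ i = 0 := by
    have := mul_neg_geom_sum x m
    rw [h, sub_self] at this
    exact (mul_eq_zero.mp this).resolve_left (sub_ne_zero.mpr h1.symm)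
  have : (m : A) = ∑ i ∈ Finset.range m, (1 - x ^ i) := by
    rw [Finset.sum_sub_distrib, h0]; simp
  rw [this]
  exact Dv.sum _ _ fun i _ => dv_pow (int_root hm h) i

/-- an odd integer other than a unit divides `(1 - x) ^ 2` only for cube roots of unity -/
theorem cube_of_dv {x : A} {m : ℕ} (hm : 0 < m) (h : x ^ m = 1) {a : ℤ} (ha : Odd a)
    (ha1 : 2 ≤ |a|) (hd : Dv (a : A) ((1 - x) ^ 2)) : x ^ 3 = 1 := by
  have hfin : 0 < orderOf x := by
    rw [orderOf_pos_iff]; exact isOfFinOrder_iff_pow_eq_one.mpr ⟨m, hm, h⟩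
  obtain ⟨N, hN⟩ : ∃ N, orderOf x = N + 1 := ⟨orderOf x - 1, by omega⟩
  have hp : IsPrimitiveRoot x (N + 1) := hN ▸ IsPrimitiveRoot.orderOf x
  have h1 := Dv.prod N (fun k => (1 - x ^ (k + 1)) ^ 2) (x := (a : A)) fun k => by
    refine hd.trans ?_
    simpa only [pow_two] using (dv_pow (int_root hm h) (k + 1)).mul (dv_pow (int_root hm h) (k + 1))
  rw [Finset.prod_pow, hp.prod_one_sub_pow_eq_order] at h1
  have h2 : a ^ N ∣ ((N : ℤ) + 1) ^ 2 := Dv.int (A := A) (by push_cast; exact h1)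
  have h3 : (3 : ℤ) ≤ |a| := by
    obtain ⟨k, rfl⟩ := ha
    rcases abs_cases (2 * k + 1) with h | h <;> omega
  have h4 : (3 : ℤ) ^ N ≤ ((N : ℤ) + 1) ^ 2 := by
    refine (pow_le_pow_left₀ (by norm_num) h3 N).trans ?_
    rw [← abs_pow]
    exact Int.le_of_dvd (by positivity) ((abs_dvd _ _).mpr h2)
  have h5 : ∀ k : ℕ, (((k + 3 : ℕ) : ℤ) + 1) ^ 2 < 3 ^ (k + 3) := by
    intro k
    induction k with
    | zero => norm_num
    | succ k ih =>
      rw [show k + 1 + 3 = (k + 3) + 1 by ring, pow_succ (3 : ℤ)]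
      push_cast at ih ⊢
      nlinarith [(Nat.cast_nonneg k : (0 : ℤ) ≤ k)]
  have h6 : N < 3 := by
    by_contra hc
    obtain ⟨k, rfl⟩ : ∃ k, N = k + 3 := ⟨N - 3, by omega⟩
    exact absurd (h5 k) (not_lt.mpr h4)
  interval_cases N
  · have := hp.pow_eq_one
    simp only [zero_add, pow_one] at this
    simp [this]
  · exfalso
    have h7 : a ∣ 2 ^ 2 := by simpa using h2
    have h8 : IsCoprime a (2 ^ 2) := (Int.isCoprime_two_right.mpr ha).pow_right
    have := Int.isUnit_iff_abs_eq.mp (h8.isUnit_of_dvd h7)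
    omega
  · exact hp.pow_eq_one

theorem sub_dv {t x : A} (ht : IsIntegral ℤ t) (hx : x ∈ Algebra.adjoin ℤ {t})
    (σ ρ : A ≃ₐ[ℚ] A) : Dv (σ t - ρ t) (σ x - ρ x) := by
  have hi : ∀ y ∈ Algebra.adjoin ℤ {t}, IsIntegral ℤ y := fun y hy =>
    IsIntegral.of_mem_of_fg _ ht.fg_adjoin_singleton _ hy
  induction hx using Algebra.adjoin_induction with
  | mem x hx => rw [Set.mem_singleton_iff.mp hx]; exact ⟨1, isIntegral_one, by ring⟩
  | algebraMap r => simpa using Dv.zero _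
  | add x y _ _ hx hy =>
    rw [map_add, map_add, add_sub_add_comm]; exact hx.add hy
  | mul x y hx' hy' hx hy =>
    have : σ (x * y) - ρ (x * y) = (σ x - ρ x) * σ y + (σ y - ρ y) * ρ x := by
      rw [map_mul, map_mul]; ring
    rw [this]
    exact (hx.right (int_aut σ (hi y hy'))).add (hy.right (int_aut ρ (hi x hx')))

theorem fix_of_mem {t x : A} (hx : x ∈ Algebra.adjoin ℤ {t}) (ρ : A ≃ₐ[ℚ] A) (h : ρ t = t) :
    ρ x = x := by
  induction hx using Algebra.adjoin_induction with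
  | mem x hx => rw [Set.mem_singleton_iff.mp hx, h]
  | algebraMap r => simp
  | add x y _ _ hx hy => rw [map_add, hx, hy]
  | mul x y _ _ hx hy => rw [map_mul, hx, hy]

/-- if `z ^ 2 = p z + q` with `p, q` in `S`, then `ℤ[z]` lies in `S + S z` -/
theorem decomp (S : Subalgebra ℤ A) {z p q : A} (hp : p ∈ S) (hq : q ∈ S)
    (hz : z * z = p * z + q) {x : A} (hx : x ∈ Algebra.adjoin ℤ {z}) :
    ∃ a ∈ S, ∃ b ∈ S, x = a + b * z := by
  induction hx using Algebra.adjoin_induction with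
  | mem x hx => exact ⟨0, zero_mem _, 1, one_mem _, by simp [Set.mem_singleton_iff.mp hx]⟩
  | algebraMap r => exact ⟨_, Subalgebra.algebraMap_mem _ r, 0, zero_mem _, by simp⟩
  | add x y _ _ hx hy =>
    obtain ⟨a, ha, b, hb, rfl⟩ := hx
    obtain ⟨c, hc, d, hd, rfl⟩ := hy
    exact ⟨a + c, add_mem ha hc, b + d, add_mem hb hd, by ring⟩
  | mul x y _ _ hx hy =>
    obtain ⟨a, ha, b, hb, rfl⟩ := hx
    obtain ⟨c, hc, d, hd, rfl⟩ := hy
    refine ⟨a * c + b * d * q, add_mem (mul_mem ha hc) (mul_mem (mul_mem hb hd) hq),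
      a * d + b * c + b * d * p,
      add_mem (add_mem (mul_mem ha hd) (mul_mem hb hc)) (mul_mem (mul_mem hb hd) hp), ?_⟩
    linear_combination (b * d) * hz

/-- every algebraic integer of the field generated by `t` lies in `ℤ[t]` -/
def Cl (t : A) : Prop :=
  ∀ x : A, IsIntegral ℤ x → (∀ ρ : A ≃ₐ[ℚ] A, ρ t = t → ρ x = x) → x ∈ Algebra.adjoin ℤ {t}

theorem Cl.of_mem {t u : A} (h : Cl u) (h1 : u ∈ Algebra.adjoin ℤ {t})
    (h2 : t ∈ Algebra.adjoin ℤ {u}) : Cl t := fun x hx hf =>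
  (Algebra.adjoin_le_iff.mpr (Set.singleton_subset_iff.mpr h1))
    (h x hx fun ρ hρ => hf ρ (fix_of_mem h2 ρ hρ))

section
variable [IsAlgClosed A] [Algebra.IsAlgebraic ℚ A]

theorem galois : IsGalois ℚ A :=
  have : IsAlgClosure ℚ A := ⟨inferInstance, inferInstance⟩
  {}

theorem mem_iff_fixed (t x : A) :
    x ∈ Algebra.adjoin ℚ {t} ↔ ∀ ρ : A ≃ₐ[ℚ] A, ρ t = t → ρ x = x := by
  have := galois (A := A)
  rw [← IntermediateField.adjoin_simple_toSubalgebra_of_isAlgebraic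
    (Algebra.IsAlgebraic.isAlgebraic t), IntermediateField.mem_toSubalgebra,
    ← InfiniteGalois.fixedField_fixingSubgroup ℚ⟮t⟯, IntermediateField.mem_fixedField_iff]
  refine forall_congr' fun ρ => imp_congr ?_ Iff.rfl
  rw [IntermediateField.mem_fixingSubgroup_iff]
  refine ⟨fun h => h t (mem_adjoin_simple_self ℚ t), fun h y hy => ?_⟩
  induction hy using IntermediateField.adjoin_induction with
  | mem x hx => rw [Set.mem_singleton_iff.mp hx, h]
  | algebraMap r => simp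
  | add x y _ _ hx hy => rw [map_add, hx, hy]
  | inv x _ hx => rw [map_inv₀, hx]
  | mul x y _ _ hx hy => rw [map_mul, hx, hy]

theorem exists_aut {w w' : A} {n : ℕ} (hn : 0 < n) (h : IsPrimitiveRoot w n)
    (h' : IsPrimitiveRoot w' n) : ∃ σ : A ≃ₐ[ℚ] A, σ w = w' := by
  have := galois (A := A)
  refine minpoly.exists_algEquiv_of_root (Algebra.IsAlgebraic.isAlgebraic w') ?_
  rw [← cyclotomic_eq_minpoly_rat h' hn, cyclotomic_eq_minpoly_rat h hn]
  exact minpoly.aeval ℚ w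

theorem exists_neg {c : A} {n : ℤ} (h : c * c = n) (hn : ¬ IsSquare n) :
    ∃ ρ : A ≃ₐ[ℚ] A, ρ c = -c := by
  have := galois (A := A)
  by_contra hc
  have hf : ∀ ρ : A ≃ₐ[ℚ] A, ρ c = c := fun ρ => by
    have h1 : ρ c * ρ c = c * c := by rw [← map_mul, h, map_intCast]
    exact (mul_self_eq_mul_self_iff.mp h1).resolve_right fun h2 => hc ⟨ρ, h2⟩
  obtain ⟨q, rfl⟩ := (InfiniteGalois.mem_range_algebraMap_iff_fixed c).mpr hf
  have h2 : q * q = (n : ℚ) := (algebraMap ℚ A).injective (by rw [map_mul, h, map_intCast])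
  exact hn (Rat.isSquare_intCast_iff.mp ⟨q, h2.symm⟩)

theorem exists_conj {z w : A} {a : ℤ} {d : ℕ} (ha : a < 0) (hd : 0 < d) (hw : w ^ d = 1)
    (hz : z * z = a * w) : ∃ τ : A ≃ₐ[ℚ] A, z * τ z = -a := by
  have := galois (A := A)
  let φ : A →+* ℂ := (IsAlgClosed.lift : A →ₐ[ℚ] ℂ)
  obtain ⟨σ, hσ⟩ := NumberField.ComplexEmbedding.exists_comp_symm_eq_of_comp_eq (k := ℚ) φ
    ((starRingEnd ℂ).comp φ) (Subsingleton.elim _ _)
  refine ⟨σ.symm, φ.injective ?_⟩
  have h1 : φ (σ.symm z) = starRingEnd ℂ (φ z) := RingHom.congr_fun hσ z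
  have h2 : ‖φ w‖ = 1 := by
    have : ‖φ w‖ ^ d = 1 := by rw [← norm_pow, ← map_pow, hw, map_one, norm_one]
    exact (pow_eq_one_iff_of_nonneg (norm_nonneg _) hd.ne').mp this
  have h3 : ‖φ z‖ ^ 2 = -(a : ℝ) := by
    rw [← norm_pow, ← map_pow, pow_two, hz, map_mul, norm_mul, h2, map_intCast, mul_one,
      Complex.norm_intCast, abs_of_neg (by exact_mod_cast ha)]
  rw [map_mul, h1, Complex.mul_conj, Complex.normSq_eq_norm_sq, h3]
  simp

theorem cl_root {M : ℕ} (hM : 0 < M) {w : A} (hw : IsPrimitiveRoot w M) : Cl w := by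
  intro x hi hf
  have : NeZero M := ⟨hM.ne'⟩
  have hx := (mem_iff_fixed w x).mpr hf
  have halg : IsAlgebraic ℚ w := Algebra.IsAlgebraic.isAlgebraic w
  have hcyc : IsCyclotomicExtension {M} ℚ ℚ⟮w⟯ := by
    change IsCyclotomicExtension {M} ℚ (IntermediateField.adjoin ℚ {w}).toSubalgebra
    rw [IntermediateField.adjoin_simple_toSubalgebra_of_isAlgebraic halg]
    exact hw.adjoin_isCyclotomicExtension ℚ
  have hx' : x ∈ ℚ⟮w⟯ := by
    rw [← IntermediateField.mem_toSubalgebra,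
      IntermediateField.adjoin_simple_toSubalgebra_of_isAlgebraic halg]
    exact hx
  have hw' : IsPrimitiveRoot (AdjoinSimple.gen ℚ w) M := by
    rw [← IsPrimitiveRoot.coe_submonoidClass_iff]
    exact hw
  have hcl := IsCyclotomicExtension.Rat.isIntegralClosure_adjoin_singleton hw'
  have hi' : IsIntegral ℤ (⟨x, hx'⟩ : ℚ⟮w⟯) := by
    rw [← isIntegral_algHom_iff ((ℚ⟮w⟯.val).restrictScalars ℤ) Subtype.val_injective]
    exact hi
  obtain ⟨y, hy⟩ := hcl.isIntegral_iff.mp hi'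
  have hmem : (⟨x, hx'⟩ : ℚ⟮w⟯) ∈ Algebra.adjoin ℤ {AdjoinSimple.gen ℚ w} := by
    rw [← hy]; exact y.2
  have := Subalgebra.mem_map.mpr ⟨_, hmem, (rfl : ((ℚ⟮w⟯.val).restrictScalars ℤ) _ = _)⟩
  rw [AlgHom.map_adjoin_singleton] at this
  exact this

/-- transfer between the abstract field `ℚ[X]/(g)` and a root. -/
theorem bridge {f : ℤ[X]} (hirr : Irreducible (f.map (Int.castRingHom ℚ))) {t : A}
    (ht : aeval t f = 0) (hti : IsIntegral ℤ t) :
    Algebra.adjoin ℤ {AdjoinRoot.root (f.map (Int.castRingHom ℚ))} =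
        integralClosure ℤ (AdjoinRoot (f.map (Int.castRingHom ℚ))) ↔ Cl t := by
  set g := f.map (Int.castRingHom ℚ) with hg
  have : Fact (Irreducible g) := ⟨hirr⟩
  have htg : g.eval₂ (Algebra.ofId ℚ A) t = 0 := by
    have : aeval t g = 0 := by
      rw [hg, ← algebraMap_int_eq, aeval_map_algebraMap]; exact ht
    exact this
  let φ : AdjoinRoot g →ₐ[ℚ] A := AdjoinRoot.liftAlgHom g (Algebra.ofId ℚ A) t htg
  have hφr : φ (AdjoinRoot.root g) = t := AdjoinRoot.liftAlgHom_root _ _ _ _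
  have hinj : Function.Injective φ := φ.toRingHom.injective
  let ψ : AdjoinRoot g →ₐ[ℤ] A := φ.restrictScalars ℤ
  have hψinj : Function.Injective ψ := hinj
  have hrange : ∀ x, x ∈ Algebra.adjoin ℚ {t} ↔ ∃ y, φ y = x := by
    intro x
    rw [Algebra.adjoin_singleton_eq_range_aeval]
    constructor
    · rintro ⟨q, rfl⟩
      exact ⟨AdjoinRoot.mk g q, rfl⟩
    · rintro ⟨y, rfl⟩
      obtain ⟨q, rfl⟩ := AdjoinRoot.mk_surjective y
      exact ⟨q, rfl⟩
  have hZ : ∀ y, y ∈ Algebra.adjoin ℤ {AdjoinRoot.root g} ↔ ψ y ∈ Algebra.adjoin ℤ {t} := by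
    intro y
    have : ψ (AdjoinRoot.root g) = t := hφr
    rw [← this, ← AlgHom.map_adjoin_singleton, Subalgebra.mem_map]
    constructor
    · intro h; exact ⟨y, h, rfl⟩
    · rintro ⟨y', h, e⟩; rwa [← hψinj e]
  constructor
  · intro h x hi hx
    obtain ⟨y, rfl⟩ := (hrange x).mp ((mem_iff_fixed t x).mpr hx)
    have : y ∈ integralClosure ℤ (AdjoinRoot g) := (isIntegral_algHom_iff ψ hψinj).mp hi
    rw [← h] at this
    exact (hZ y).mp this
  · intro h
    apply le_antisymm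
    · rw [Algebra.adjoin_le_iff, Set.singleton_subset_iff]
      have : IsIntegral ℤ (ψ (AdjoinRoot.root g)) := by
        have e : ψ (AdjoinRoot.root g) = t := hφr
        rw [e]; exact hti
      exact (isIntegral_algHom_iff ψ hψinj).mp this
    · intro y hy
      rw [hZ]
      exact h _ (IsIntegral.map ψ hy) ((mem_iff_fixed t _).mp ((hrange _).mpr ⟨y, rfl⟩))

end

end Pool.Agent.Lib.MP_b164a8_nt.DK
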