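import Pool.Agent.Lib.MP_b164a8_nt.DK.Units

/-! Exclusions for `|a| ≥ 2`. -/

set_option autoImplicit false

open Polynomial

namespace Pool.Agent.Lib.MP_b164a8_nt.DK

variable {A : Type} [Field A] [CharZero A]

theorem eta_diff {w : A} (h : w ≠ 0) (i k : ℕ) :
    w ^ i + (w ^ i)⁻¹ - (w ^ (i + k) + (w ^ (i + k))⁻¹) =
      (1 - w ^ k) * (1 - w ^ (2 * i + k)) * -(w ^ (i + k))⁻¹ := by
  field_simp
  ring

variable [IsAlgClosed A] [Algebra.IsAlgebraic ℚ A] {a : ℤ} {d : ℕ} {w z t : A}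

namespace Dat

variable (D : Dat a d w z t)
include D

theorem aut {j : ℕ} (hj : j.Coprime d) : ∃ σ : A ≃ₐ[ℚ] A, σ w = w ^ j ∧
    σ (w + w⁻¹) = w ^ j + (w ^ j)⁻¹ := by
  obtain ⟨σ, hσ⟩ := exists_aut D.pos D.prim (D.prim.pow_of_coprime j hj)
  exact ⟨σ, hσ, by rw [map_add, map_inv₀, hσ]⟩

theorem eta_ne {i k : ℕ} (h1 : ¬ d ∣ k) (h2 : ¬ d ∣ 2 * i + k) :
    w ^ i + (w ^ i)⁻¹ ≠ w ^ (i + k) + (w ^ (i + k))⁻¹ := by
  rw [← sub_ne_zero, eta_diff D.w0]
  exact mul_ne_zero (mul_ne_zero (sub_ne_zero.mpr (D.ne1 h1).symm)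
    (sub_ne_zero.mpr (D.ne1 h2).symm)) (by simp [D.w0])

theorem eight (ha : 2 ≤ |a|) (hc : Cl t) (h8 : 8 ∣ d) : False := by
  obtain ⟨k, hk⟩ := h8
  have h4 : w ^ (4 * k) = -1 := D.half (by omega)
  have hcop : (4 * k + 1).Coprime d := by
    rw [hk, show 8 * k = 2 * (4 * k) by ring]
    refine Nat.Coprime.mul_right (Odd.coprime_two_right ⟨2 * k, by ring⟩) (by simp)
  obtain ⟨σ, hσ, he⟩ := D.aut hcop
  rw [pow_succ, h4, neg_one_mul] at hσ he
  have h1 : σ (w ^ (2 * k)) = w ^ (2 * k) := by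
    rw [map_pow, hσ, (even_two_mul k).neg_pow]
  have h2 : w ^ (2 * k) * w ^ (2 * k) = -1 := by rw [← pow_add, ← h4]; ring_nf
  have h3 : σ z * σ z = (w ^ (2 * k) * z) * (w ^ (2 * k) * z) := by
    rw [← map_mul, D.sq, map_mul, map_intCast, hσ]
    linear_combination -(z * z) * h2 + D.sq
  have h5 : σ (σ z) = -z := by
    rcases mul_self_eq_mul_self_iff.mp h3 with h | h
    · rw [h, map_mul, h1, h]; linear_combination z * h2
    · rw [h, map_neg, map_mul, h1, h]; linear_combination z * h2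
  refine lemB ha D.it D.ie D.tt hc (σ.trans σ) σ ?_ fun h => ?_
  · simp [D.eq, hσ, h5]
  · rw [he, inv_neg] at h
    refine D.ne1 (k := 4) (fun h' => ?_) ?_
    · have := Nat.le_of_dvd (by norm_num) h'
      have := D.pos
      omega
    · linear_combination (-(w ^ 3 - w) / 2) * h - (w ^ 2 - 1) * D.ww

theorem negat (ha : 2 ≤ |a|) (hn : a < 0) (hc : Cl t) (σ : A ≃ₐ[ℚ] A)
    (hσ : σ (w + w⁻¹) ≠ w + w⁻¹) : False := by
  obtain ⟨τ, hτ⟩ := exists_conj hn D.pos D.prim.pow_eq_one D.sq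
  have ha' : (a : A) ≠ 0 := by exact_mod_cast hn.ne
  have h0 : z ≠ 0 := by rintro rfl; exact ha' (by simpa using hτ)
  have h1 : τ z = -(z * w⁻¹) := by
    refine mul_left_cancel₀ h0 ?_
    linear_combination hτ + w⁻¹ * D.sq + (a : A) * D.ww
  have h2 : τ w = w⁻¹ := by
    refine mul_left_cancel₀ ha' ?_
    have := congrArg τ D.sq
    rw [map_mul, map_mul, map_intCast, h1] at this
    linear_combination -this + (w⁻¹) ^ 2 * D.sq + (a : A) * w⁻¹ * D.ww
  refine lemB ha D.it D.ie D.tt hc τ σ ?_ hσ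
  rw [D.eq, map_mul, map_add, map_one, map_inv₀, h1, h2, inv_inv]
  linear_combination -z * D.ww

theorem dvm {m k : ℕ} (hm : Odd m) (h1 : d ∣ 4 * m) (h2 : m ∣ d) (h3 : ¬ m ∣ k) :
    Dv (1 - w ^ k) (m : A) := by
  refine (dv_pow (D.iw.pow k) 4).trans (dv_order hm.pos ?_ ?_)
  · rw [← pow_mul, ← pow_mul]
    exact (D.prim.pow_eq_one_iff_dvd _).mpr (h1.mul_left k)
  · rw [← pow_mul]
    refine D.ne1 fun h => h3 ?_
    exact (hm.coprime_two_right.pow_right 2).dvd_of_dvd_mul_right (h2.trans h)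

theorem cop {m j : ℕ} (h1 : d ∣ 4 * m) (hj : Odd j) (h : j.Coprime m) : j.Coprime d :=
  ((hj.coprime_two_right.pow_right 2).mul_right h).coprime_dvd_right h1

theorem even {m : ℕ} (ha : a ≠ 0) (he : Even a) (hc : Cl t) (hm : Odd m) (h5 : 5 ≤ m)
    (h1 : d ∣ 4 * m) (h2 : m ∣ d) : False := by
  obtain ⟨σ, -, hσ⟩ := D.aut (j := 1 + (m + 1)) (D.cop h1 (by
    obtain ⟨k, rfl⟩ := hm; exact ⟨k + 1, by ring⟩) (by
    rw [show 1 + (m + 1) = 2 + m by ring, Nat.coprime_add_self_left]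
    exact hm.coprime_two_left))
  have n1 : ¬ m ∣ m + 1 := fun h => by
    have := Nat.le_of_dvd (by norm_num) ((Nat.dvd_add_right dvd_rfl).mp h)
    omega
  have n3 : ¬ m ∣ 2 * 1 + (m + 1) := fun h => by
    rw [show 2 * 1 + (m + 1) = m + 3 by ring] at h
    have := Nat.le_of_dvd (by norm_num) ((Nat.dvd_add_right dvd_rfl).mp h)
    omega
  have hne := D.eta_ne (i := 1) (fun h => n1 (h2.trans h)) fun h => n3 (h2.trans h)
  have hd := eta_diff D.w0 1 (m + 1)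
  rw [pow_one, ← hσ] at hne hd
  obtain ⟨c, hci, h3, h4⟩ := lemA ha D.it D.ie D.tt hc AlgEquiv.refl σ hne
  change w + w⁻¹ - _ = (t - _) * c at h3
  change t + _ = _ at h4
  obtain ⟨b, hb⟩ := he
  have hb' : (a : A) = b + b := by exact_mod_cast hb
  have h6 : Dv (2 : A) ((1 - w ^ (m + 1)) * (1 - w ^ (2 * 1 + (m + 1)))) := by
    refine ⟨-((b * c - σ t) * c * w ^ (1 + (m + 1))), ((((int_int b).mul hci).sub
      (int_aut σ D.it)).mul hci |>.mul (D.iw.pow _)).neg, ?_⟩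
    have h7 := mul_inv_cancel₀ (pow_ne_zero (1 + (m + 1)) D.w0)
    rw [hσ] at h3 hd
    linear_combination w ^ (1 + (m + 1)) * (hd - h3 - c * h4 - c ^ 2 * hb') -
      (1 - w ^ (m + 1)) * (1 - w ^ (2 * 1 + (m + 1))) * h7
  have h7 : (2 : ℤ) ∣ m * m := Dv.int (A := A) (by
    push_cast
    exact h6.trans ((D.dvm hm h1 h2 n1).mul (D.dvm hm h1 h2 n3)))
  obtain ⟨k, rfl⟩ := hm
  have : ((2 * k + 1 : ℕ) : ℤ) * (2 * k + 1 : ℕ) = 2 * (2 * k * k + 2 * k) + 1 := by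
    push_cast; ring
  omega

theorem odd {m : ℕ} (ha : 2 ≤ |a|) (ho : Odd a) (hc : Cl t) (hm : Odd m) (h5 : 5 ≤ m)
    (h1 : d ∣ 4 * m) (h2 : m ∣ d) (h10 : ¬ d ∣ 10) : False := by
  have ha0 : a ≠ 0 := by rintro rfl; simp at ha
  have ha' : (a : A) ≠ 0 := by exact_mod_cast ha0
  obtain ⟨σ, -, hσ⟩ := D.aut (j := 1 + (m + 1)) (D.cop h1 (by
    obtain ⟨k, rfl⟩ := hm; exact ⟨k + 1, by ring⟩) (by
    rw [show 1 + (m + 1) = 2 + m by ring, Nat.coprime_add_self_left]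
    exact hm.coprime_two_left))
  obtain ⟨ρ, -, hρ⟩ := D.aut (j := 1 + (m + 3)) (D.cop h1 (by
    obtain ⟨k, rfl⟩ := hm; exact ⟨k + 2, by ring⟩) (by
    rw [show 1 + (m + 3) = 2 ^ 2 + m by ring, Nat.coprime_add_self_left]
    exact hm.coprime_two_left.pow_left 2))
  have nn : ∀ k, 0 < k → k < 5 → ¬ d ∣ m + k := fun k hk hk' h => by
    have := Nat.le_of_dvd hk ((Nat.dvd_add_right dvd_rfl).mp (h2.trans h))
    omega
  have e1 := D.eta_ne (i := 1) (k := m + 1) (nn 1 (by norm_num) (by norm_num)) (by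
    rw [show 2 * 1 + (m + 1) = m + 3 by ring]; exact nn 3 (by norm_num) (by norm_num))
  have e2 := D.eta_ne (i := 1) (k := m + 3) (nn 3 (by norm_num) (by norm_num)) fun h => by
    rw [show 2 * 1 + (m + 3) = m + 5 by ring] at h
    have := Nat.le_of_dvd (by norm_num) ((Nat.dvd_add_right dvd_rfl).mp (h2.trans h))
    obtain rfl : m = 5 := by omega
    exact h10 h
  have e3 := D.eta_ne (i := 1 + (m + 1)) (k := 2) (fun h => by
    have := Nat.le_of_dvd (by norm_num) (h2.trans h)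
    omega) fun h => by
    rw [show 2 * (1 + (m + 1)) + 2 = m * 2 + 6 by ring] at h
    have h6 := (Nat.dvd_add_right (dvd_mul_right m 2)).mp (h2.trans h)
    have := Nat.le_of_dvd (by norm_num) h6
    obtain ⟨k, rfl⟩ := hm
    obtain rfl : k = 2 := by omega
    norm_num at h6
  rw [show 1 + (m + 1) + 2 = 1 + (m + 3) by ring, ← hσ, ← hρ] at e3
  rw [pow_one, ← hσ] at e1
  rw [pow_one, ← hρ] at e2
  obtain ⟨c1, i1, -, f1⟩ := lemA ha0 D.it D.ie D.tt hc AlgEquiv.refl σ e1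
  obtain ⟨c2, i2, -, f2⟩ := lemA ha0 D.it D.ie D.tt hc AlgEquiv.refl ρ e2
  obtain ⟨c3, i3, -, f3⟩ := lemA ha0 D.it D.ie D.tt hc σ ρ e3
  change t + _ = _ at f1 f2
  obtain ⟨b, hb⟩ := ho
  have hb' : (a : A) = 2 * b + 1 := by exact_mod_cast hb
  have g1 : t = a * (t - b * (c1 + c2 - c3)) := by
    linear_combination (-t) * hb' - (b : A) * (f1 + f2 - f3)
  have gi : IsIntegral ℤ (t - b * (c1 + c2 - c3)) :=
    D.it.sub ((int_int b).mul ((i1.add i2).sub i3))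
  generalize t - b * (c1 + c2 - c3) = u at g1 gi
  have g2 : w + w⁻¹ + 2 = a * (u * u) := mul_left_cancel₀ ha' (by
    linear_combination (t + a * u) * g1 - D.tt)
  have g3 : (-w) ^ 3 = 1 := cube_of_dv (m := 2 * d) (by have := D.pos; omega) (by
    rw [(even_two_mul d).neg_pow, mul_comm, pow_mul, D.prim.pow_eq_one, one_pow]) ⟨b, hb⟩ ha
    ⟨u * u * w, (gi.mul gi).mul D.iw, by linear_combination w * g2 - D.ww⟩
  have g4 : m ∣ 6 := h2.trans (D.prim.dvd_of_pow_eq_one 6 (by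
    linear_combination (1 - w ^ 3) * g3))
  have := Nat.le_of_dvd (by norm_num) g4
  obtain ⟨k, rfl⟩ := hm
  obtain rfl : k = 2 := by omega
  norm_num at g4

end Dat

theorem Dat.five (D : Dat a 5 w z t) (ha : 2 ≤ |a|) (hc : Cl t) : a = 5 := by
  have ha0 : a ≠ 0 := by rintro rfl; simp at ha
  have ha' : (a : A) ≠ 0 := by exact_mod_cast ha0
  obtain ⟨σ, -, hσ⟩ := D.aut (j := 1 + 1) (by norm_num)
  have hne := D.eta_ne (i := 1) (k := 1) (by norm_num) (by norm_num)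
  rw [pow_one, ← hσ] at hne
  have hp : ¬ a < 0 := fun h => D.negat ha h hc σ hne.symm
  have h1 : σ (w + w⁻¹) = -1 - (w + w⁻¹) := by
    rw [hσ, ← inv_pow]
    linear_combination D.e5 - 2 * D.ww
  obtain ⟨c, hci, -, h4⟩ := lemA ha0 D.it D.ie D.tt hc AlgEquiv.refl σ hne
  change t + _ = _ at h4
  have h2 := sq_aut D.tt σ
  rw [h1] at h2
  have h3 : (t * σ t) * (t * σ t) = a * a := by
    linear_combination (σ t * σ t) * D.tt + (a * (w + w⁻¹ + 2)) * h2 - (a : A) ^ 2 * D.e5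
  have h5 : a ∣ 5 ∨ a ∣ 1 := by
    refine (mul_self_eq_mul_self_iff.mp h3).imp (fun h => ?_) fun h => ?_ <;>
    refine Dv.int (A := A) ⟨c * c, hci.mul hci, mul_left_cancel₀ ha' ?_⟩ <;> push_cast <;>
    linear_combination (t + σ t + a * c) * h4 - D.tt - h2 - 2 * h
  rw [abs_of_nonneg (not_lt.mp hp)] at ha
  rcases h5 with h | h <;> have := Int.le_of_dvd (by norm_num) h <;> interval_cases a <;>
    first | rfl | norm_num at h

theorem Dat.ten (D : Dat a 10 w z t) (ha : 2 ≤ |a|) (hc : Cl t) : False := by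
  have ha0 : a ≠ 0 := by rintro rfl; simp at ha
  have ha' : (a : A) ≠ 0 := by exact_mod_cast ha0
  obtain ⟨σ, -, hσ⟩ := D.aut (j := 1 + 2) (by norm_num)
  have hne := D.eta_ne (i := 1) (k := 2) (by norm_num) (by norm_num)
  rw [pow_one, ← hσ] at hne
  have hp : ¬ a < 0 := fun h => D.negat ha h hc σ hne.symm
  have he : (w + w⁻¹) ^ 2 = 1 + (w + w⁻¹) := by
    linear_combination (w⁻¹) ^ 2 * D.r10 -
      ((w ^ 2 - w) * (w * w⁻¹ + 1) + w * w⁻¹ - 1 - w⁻¹) * D.ww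
  have h1 : σ (w + w⁻¹) = 1 - (w + w⁻¹) := by
    rw [hσ, ← inv_pow]
    linear_combination (w + w⁻¹ + 1) * he - 3 * (w + w⁻¹) * D.ww
  obtain ⟨c, hci, -, h4⟩ := lemA ha0 D.it D.ie D.tt hc AlgEquiv.refl σ hne
  change t + _ = _ at h4
  have h2 := sq_aut D.tt σ
  rw [h1] at h2
  have h3 : (t * σ t) * (t * σ t) = 5 * (a * a) := by
    linear_combination (σ t * σ t) * D.tt + (a * (w + w⁻¹ + 2)) * h2 - (a : A) ^ 2 * he
  have h5 : 2 * (t * σ t) = a * (a * c ^ 2 - 5) := by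
    linear_combination (t + σ t + a * c) * h4 - D.tt - h2
  have h6 : (a : A) ^ 2 * c ^ 4 - 10 * a * c ^ 2 + 5 = 0 := by
    refine mul_left_cancel₀ (mul_ne_zero ha' ha') ?_
    linear_combination 4 * h3 - (2 * (t * σ t) + a * (a * c ^ 2 - 5)) * h5
  have h7 : a ∣ 5 := Dv.int (A := A) ⟨(10 : ℤ) * c ^ 2 - a * c ^ 4, ((int_int _).mul
    (hci.pow 2)).sub ((int_int a).mul (hci.pow 4)), by push_cast; linear_combination h6⟩
  rw [abs_of_nonneg (not_lt.mp hp)] at ha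
  have := Int.le_of_dvd (by norm_num) h7
  obtain rfl : a = 5 := by interval_cases a <;> first | rfl | norm_num at h7
  have h8 : (5 : ℤ) ∣ 1 := Dv.int (A := A) ⟨c ^ 2 + c ^ 2 - c ^ 4, ((hci.pow 2).add
    (hci.pow 2)).sub (hci.pow 4), by push_cast at h6 ⊢; linear_combination h6 / 5⟩
  norm_num at h8

theorem Dat.twelve (D : Dat a 12 w z t) (ha : 2 ≤ |a|) (hc : Cl t) : a = 2 ∨ a = 6 := by
  have ha0 : a ≠ 0 := by rintro rfl; simp at ha
  have ha' : (a : A) ≠ 0 := by exact_mod_cast ha0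
  obtain ⟨σ, -, hσ⟩ := D.aut (j := 1 + 4) (by norm_num)
  have hne := D.eta_ne (i := 1) (k := 4) (by norm_num) (by norm_num)
  rw [pow_one, ← hσ] at hne
  have hp : ¬ a < 0 := fun h => D.negat ha h hc σ hne.symm
  have h6 : w ^ 6 = -1 := D.half (k := 6) rfl
  have h1 : σ (w + w⁻¹) = -(w + w⁻¹) := by
    have : w ^ (1 + 4) = -w⁻¹ := by linear_combination w⁻¹ * h6 - w ^ 5 * D.ww
    rw [hσ, this, inv_neg, inv_inv]; ring
  obtain ⟨c, hci, -, h4⟩ := lemA ha0 D.it D.ie D.tt hc AlgEquiv.refl σ hne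
  change t + _ = _ at h4
  have h2 := sq_aut D.tt σ
  rw [h1] at h2
  have h3 : (t * σ t) * (t * σ t) = a * a := by
    linear_combination (σ t * σ t) * D.tt + (a * (w + w⁻¹ + 2)) * h2 - (a : A) ^ 2 * D.e12
  have hab := ha
  rw [abs_of_nonneg (not_lt.mp hp)] at ha
  rcases mul_self_eq_mul_self_iff.mp h3 with h | h
  · have h5 : (6 : A) = a * (c * c) := mul_left_cancel₀ ha' (by
      linear_combination (t + σ t + a * c) * h4 - D.tt - h2 - 2 * h)
    have h7 : a ∣ 6 := Dv.int (A := A) ⟨c * c, hci.mul hci, by push_cast; exact h5⟩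
    have := Int.le_of_dvd (by norm_num) h7
    by_contra hn
    obtain rfl : a = 3 := by
      interval_cases a <;> first | rfl | omega
    obtain ⟨ρ, hρ⟩ := exists_neg (c := c) (n := 2) (by
      push_cast at h5 ⊢; linear_combination -h5 / 3) (by
      rintro ⟨r, hr⟩
      have : r * r = 2 := hr.symm
      have h1 : r ≤ 1 := by nlinarith
      have h2 : -1 ≤ r := by nlinarith
      interval_cases r <;> omega)
    have h8 : t * t - (3 : ℤ) * c * t + (3 : ℤ) = 0 := by linear_combination t * h4 - h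
    have h9 := congrArg ρ h8
    rw [map_add, map_sub, map_mul, map_mul, map_mul, map_intCast, hρ, map_zero] at h9
    have h10 : (ρ t + t) * (ρ t + σ t) = 0 := by linear_combination h9 + ρ t * h4 + h
    rcases mul_eq_zero.mp h10 with h11 | h11
    · exact lemB hab D.it D.ie D.tt hc ρ σ (eq_neg_of_add_eq_zero_left h11) hne.symm
    · refine lemB hab D.it D.ie D.tt hc (ρ.trans σ.symm) σ ?_ hne.symm
      simp [eq_neg_of_add_eq_zero_left h11]
  · have h7 : a ∣ 2 := Dv.int (A := A) ⟨c * c, hci.mul hci, mul_left_cancel₀ ha' (by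
      push_cast
      linear_combination (t + σ t + a * c) * h4 - D.tt - h2 - 2 * h)⟩
    have := Int.le_of_dvd (by norm_num) h7
    omega

end Pool.Agent.Lib.MP_b164a8_nt.DK
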