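import Pool.Agent.Lib.MP_b164a8_nt.DK.Base

/-! The working lemmas: obstructions from conjugates, units, quadratic fields. -/

set_option autoImplicit false

open Polynomial

namespace Pool.Agent.Lib.MP_b164a8_nt.DK

variable {A : Type} [Field A] [CharZero A]

theorem not_dv_two : ¬ Dv (2 : A) 1 := fun h => by
  have : (2 : ℤ) ∣ 1 := Dv.int (A := A) (by push_cast; exact h)
  omega

theorem Dv.cancel {x y u : A} (hu : u ≠ 0) (h : Dv (x * u) (y * u)) : Dv x y := by
  obtain ⟨c, hc, h⟩ := h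
  exact ⟨c, hc, mul_right_cancel₀ hu (by rw [h]; ring)⟩

theorem self_mem (t : A) : t ∈ Algebra.adjoin ℤ {t} := Algebra.subset_adjoin rfl

theorem eta_mem {a : ℤ} {t e : A} (ha : a ≠ 0) (he : IsIntegral ℤ e) (h : t * t = a * (e + 2))
    (hc : Cl t) : e ∈ Algebra.adjoin ℤ {t} := by
  refine hc e he fun ρ hρ => ?_
  have h1 := congrArg ρ h
  rw [map_mul, hρ, h, map_mul, map_intCast, map_add, map_ofNat] at h1
  have ha' : (a : A) ≠ 0 := by exact_mod_cast ha
  exact (add_right_cancel (mul_left_cancel₀ ha' h1)).symm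

theorem sq_aut {a : ℤ} {t e : A} (h : t * t = a * (e + 2)) (σ : A ≃ₐ[ℚ] A) :
    σ t * σ t = a * (σ e + 2) := by
  rw [← map_mul, h, map_mul, map_intCast, map_add, map_ofNat]

theorem lemA {a : ℤ} {t e : A} (ha : a ≠ 0) (ht : IsIntegral ℤ t) (he : IsIntegral ℤ e)
    (h : t * t = a * (e + 2)) (hc : Cl t) (σ ρ : A ≃ₐ[ℚ] A) (hne : σ e ≠ ρ e) :
    ∃ c : A, IsIntegral ℤ c ∧ σ e - ρ e = (σ t - ρ t) * c ∧ σ t + ρ t = a * c := by
  obtain ⟨c, hci, hc'⟩ := sub_dv ht (eta_mem ha he h hc) σ ρ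
  refine ⟨c, hci, hc', ?_⟩
  have h0 : σ t - ρ t ≠ 0 := fun h0 => hne (sub_eq_zero.mp (by rw [hc', h0, zero_mul]))
  refine mul_left_cancel₀ h0 ?_
  linear_combination sq_aut h σ - sq_aut h ρ + (a : A) * hc'

theorem lemB {a : ℤ} {t e : A} (ha : 2 ≤ |a|) (ht : IsIntegral ℤ t) (he : IsIntegral ℤ e)
    (h : t * t = a * (e + 2)) (hc : Cl t) (τ σ : A ≃ₐ[ℚ] A) (hτ : τ t = -t) (hne : σ e ≠ e) :
    False := by
  have ha0 : a ≠ 0 := by rintro rfl; simp at ha
  have ha' : (a : A) ≠ 0 := by exact_mod_cast ha0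
  have hfix : τ (t * t) = t * t := by rw [map_mul, hτ]; ring
  obtain ⟨p, hp, q, hq, hpq⟩ := decomp (Algebra.adjoin ℤ {t * t}) (z := t) (zero_mem _)
    (self_mem _) (by ring) (eta_mem ha0 he h hc)
  have h1 : τ e = e := by
    have := sq_aut h τ
    rw [← map_mul, hfix, h] at this
    exact (add_right_cancel (mul_left_cancel₀ ha' this)).symm
  have h2 : e = p := by
    have h3 := congrArg τ hpq
    rw [h1, map_add, map_mul, fix_of_mem hp τ hfix, fix_of_mem hq τ hfix, hτ] at h3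
    linear_combination (hpq + h3) / 2
  have h4 := sub_dv (ht.mul ht) (h2 ▸ hp : e ∈ _) σ AlgEquiv.refl
  have h5 : σ (t * t) - AlgEquiv.refl (R := ℚ) (A₁ := A) (t * t) = a * (σ e - e) := by
    rw [map_mul, sq_aut h σ]
    change _ - t * t = _
    rw [h]; ring
  rw [h5] at h4
  have h6 : Dv (a : A) ((1 : ℤ) : A) := by
    refine Dv.cancel (sub_ne_zero.mpr hne) ?_
    simpa using h4
  have := Int.isUnit_iff_abs_eq.mp (isUnit_of_dvd_one h6.int)
  omega

section
variable [IsAlgClosed A] [Algebra.IsAlgebraic ℚ A]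

theorem good {M : ℕ} {z z' : A} {a : ℤ} (hM : 0 < M) (hz : IsPrimitiveRoot z M)
    (hz' : IsPrimitiveRoot z' M) (h : z * z' = a) (hne : z ≠ z') : Cl (z + z') := by
  intro x hx hf
  have h0 := hz.ne_zero hM.ne'
  have h0' := hz'.ne_zero hM.ne'
  have hm : ∀ ρ : A ≃ₐ[ℚ] A, ρ z * ρ z' = z * z' := fun ρ => by
    rw [← map_mul, h, map_intCast]
  have h1 : x ∈ Algebra.adjoin ℤ {z} := cl_root hM hz x hx fun ρ hρ => hf ρ (by
    have := hm ρ
    rw [hρ] at this
    rw [map_add, hρ, mul_left_cancel₀ h0 this])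
  obtain ⟨p, hp, q, hq, hpq⟩ := decomp (Algebra.adjoin ℤ {z + z'}) (z := z) (q := -(a : A))
    (self_mem _) (neg_mem (intCast_mem _ a)) (by linear_combination -h) h1
  obtain ⟨σ, hσ⟩ := exists_aut hM hz hz'
  have hs : σ (z + z') = z + z' := by
    have := hm σ
    rw [hσ, mul_comm z] at this
    rw [map_add, hσ, mul_left_cancel₀ h0' this, add_comm]
  have h3 := congrArg σ hpq
  rw [hf σ hs, map_add, map_mul, fix_of_mem hp σ hs, fix_of_mem hq σ hs, hσ] at h3
  have h4 : q * (z - z') = 0 := by linear_combination h3 - hpq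
  rw [hpq, (mul_eq_zero.mp h4).resolve_right (sub_ne_zero.mpr hne), zero_mul, add_zero]
  exact hp

theorem int_of_fixed {x : A} (hx : IsIntegral ℤ x) (hf : ∀ ρ : A ≃ₐ[ℚ] A, ρ x = x) :
    ∃ n : ℤ, x = n := by
  have := galois (A := A)
  obtain ⟨q, rfl⟩ := (InfiniteGalois.mem_range_algebraMap_iff_fixed x).mpr hf
  obtain ⟨n, rfl⟩ := rat_int (A := A) (q := q) hx
  exact ⟨n, by simp⟩

theorem quad {t : A} {m : ℤ} (h : t * t = m) :
    Cl t ↔ IsSquare m ∨ (Squarefree m ∧ m % 4 ≠ 1) := by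
  have hti : IsIntegral ℤ t := IsIntegral.of_pow two_pos (by rw [pow_two, h]; exact int_int m)
  by_cases hs : IsSquare m
  · refine iff_of_true (fun x hx hf => ?_) (Or.inl hs)
    obtain ⟨n, rfl⟩ := hs
    have ht : ∀ ρ : A ≃ₐ[ℚ] A, ρ t = t := fun ρ => by
      rcases mul_self_eq_mul_self_iff.mp (h.trans (Int.cast_mul n n)) with h | h <;> simp [h]
    obtain ⟨k, rfl⟩ := int_of_fixed hx fun ρ => hf ρ (ht ρ)
    exact intCast_mem _ k
  obtain ⟨τ, hτ⟩ := exists_neg h hs
  have hm0 : m ≠ 0 := by rintro rfl; exact hs IsSquare.zero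
  have hm0' : (m : A) ≠ 0 := by exact_mod_cast hm0
  have ht0 : t ≠ 0 := by rintro rfl; exact hm0' (by rw [← h, zero_mul])
  rw [or_iff_right hs]
  constructor
  · intro hc
    refine ⟨fun p hp => ?_, fun h4 => ?_⟩
    · obtain ⟨k, hk⟩ := hp
      have hp0 : (p : A) ≠ 0 := by
        have : p ≠ 0 := by rintro rfl; exact hm0 (by simp [hk])
        exact_mod_cast this
      have hi : IsIntegral ℤ (t / p) := by
        refine IsIntegral.of_pow two_pos ?_
        have : (t / p) ^ 2 = k := by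
          rw [div_pow, pow_two, h, hk]; push_cast; field_simp
        rw [this]; exact int_int k
      obtain ⟨c, hci, hcc⟩ := sub_dv hti (hc _ hi fun ρ hρ => by
        rw [map_div₀, hρ, map_intCast]) AlgEquiv.refl τ
      rw [map_div₀ τ, hτ, map_intCast] at hcc
      change t / p - _ = (t - _) * c at hcc
      refine isUnit_of_dvd_one (Dv.int (A := A) ⟨c, hci, ?_⟩)
      field_simp at hcc
      push_cast
      linear_combination hcc
    · obtain ⟨k, hk⟩ : ∃ k, m = 4 * k + 1 := ⟨m / 4, by omega⟩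
      have hi : IsIntegral ℤ ((1 + t) / 2) := by
        refine ⟨X ^ 2 - X - C k, by monicity!, ?_⟩
        have hk' : (m : A) = 4 * k + 1 := by exact_mod_cast hk
        rw [eval₂_sub, eval₂_sub, eval₂_pow, eval₂_X, eval₂_C, algebraMap_int_eq, eq_intCast]
        linear_combination (h + hk') / 4
      obtain ⟨c, hci, hcc⟩ := sub_dv hti (hc _ hi fun ρ hρ => by
        rw [map_div₀, map_add, hρ, map_one, map_ofNat]) AlgEquiv.refl τ
      rw [map_div₀ τ, map_add τ, hτ, map_one, map_ofNat τ] at hcc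
      change (1 + t) / 2 - _ = (t - _) * c at hcc
      refine not_dv_two (A := A) ⟨c, hci, mul_left_cancel₀ ht0 ?_⟩
      linear_combination hcc
  · rintro ⟨hsf, h4⟩ x hx hf
    have hy := int_aut τ hx
    have hτ' : τ.symm t = -t := by
      have := congrArg τ.symm hτ
      rw [AlgEquiv.symm_apply_apply, map_neg] at this
      linear_combination this
    have key : ∀ ρ : A ≃ₐ[ℚ] A, (ρ t = t ∧ ρ x = x ∧ ρ (τ x) = τ x) ∨
        (ρ t = -t ∧ ρ x = τ x ∧ ρ (τ x) = x) := fun ρ => by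
      have h1 : ρ t * ρ t = t * t := by rw [← map_mul, h, map_intCast]
      rcases mul_self_eq_mul_self_iff.mp h1 with h2 | h2
      · refine Or.inl ⟨h2, hf ρ h2, ?_⟩
        have := hf ((τ.trans ρ).trans τ.symm) (by simp [hτ, h2, hτ'])
        simpa [AlgEquiv.symm_apply_eq] using this
      · refine Or.inr ⟨h2, ?_, hf (τ.trans ρ) (by simp [hτ, h2])⟩
        have := hf (ρ.trans τ.symm) (by simp [h2, hτ'])
        simpa [AlgEquiv.symm_apply_eq] using this
    obtain ⟨s, hs'⟩ := int_of_fixed (hx.add hy) fun ρ => by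
      rcases key ρ with ⟨-, h2, h3⟩ | ⟨-, h2, h3⟩ <;> rw [map_add, h2, h3]
      ring
    obtain ⟨n, hn⟩ := int_of_fixed (hx.mul hy) fun ρ => by
      rcases key ρ with ⟨-, h2, h3⟩ | ⟨-, h2, h3⟩ <;> rw [map_mul, h2, h3]
      ring
    obtain ⟨u, hu⟩ := int_of_fixed ((hx.sub hy).mul hti) fun ρ => by
      rcases key ρ with ⟨h1, h2, h3⟩ | ⟨h1, h2, h3⟩ <;> rw [map_mul, map_sub, h1, h2, h3]
      ring
    have e1 : u ^ 2 = m * (s ^ 2 - 4 * n) := by
      have : (u : A) ^ 2 = m * (s ^ 2 - 4 * n) := by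
        rw [← hu, ← hs', ← hn, ← h]; ring
      exact_mod_cast this
    obtain ⟨v, rfl⟩ : m ∣ u := (hsf.dvd_pow_iff_dvd two_ne_zero).mp ⟨_, e1⟩
    have e2 : m * v ^ 2 = s ^ 2 - 4 * n := mul_left_cancel₀ hm0 (by linear_combination e1)
    have e3 : x - τ x = v * t := by
      refine mul_right_cancel₀ ht0 ?_
      rw [hu, mul_assoc, h]; push_cast; ring
    have h0 : m % 4 ≠ 0 := fun h0 => by
      have := hsf 2 (by omega)
      rw [Int.isUnit_iff] at this
      omega
    obtain ⟨v', rfl⟩ : ∃ v', v = 2 * v' := by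
      rcases Int.even_or_odd' v with ⟨v', hv | hv⟩
      · exact ⟨v', hv⟩
      · exfalso
        rcases Int.even_or_odd' s with ⟨s', hs | hs⟩
        · have : m = 4 * (s' ^ 2 - n - m * (v' ^ 2 + v')) := by
            rw [hv, hs] at e2; linear_combination e2
          omega
        · have : m = 4 * (s' ^ 2 + s' - n - m * (v' ^ 2 + v')) + 1 := by
            rw [hv, hs] at e2; linear_combination e2
          omega
    obtain ⟨s', rfl⟩ : ∃ s', s = 2 * s' := by
      rcases Int.even_or_odd' s with ⟨s', hs | hs⟩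
      · exact ⟨s', hs⟩
      · exfalso
        have : 4 * (m * v' ^ 2 - s' ^ 2 - s' + n) = 1 := by
          rw [hs] at e2; linear_combination e2
        omega
    have e4 : x = s' + v' * t := by
      push_cast at hs' e3
      linear_combination (hs' + e3) / 2
    rw [e4]
    exact add_mem (intCast_mem _ _) (mul_mem (intCast_mem _ _) (self_mem _))

end

end Pool.Agent.Lib.MP_b164a8_nt.DK
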