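import Pool.Agent.Lib.MP_b164a8_nt.DK.Excl

/-! The classification at the level of roots. -/

set_option autoImplicit false

open Polynomial

namespace Pool.Agent.Lib.MP_b164a8_nt.DK

variable {A : Type} [Field A] [CharZero A] [IsAlgClosed A] [Algebra.IsAlgebraic ℚ A]

/-- `ℤ[√m]` is the ring of integers of `ℚ(√m)` -/
def Q (m : ℤ) : Prop := IsSquare m ∨ (Squarefree m ∧ m % 4 ≠ 1)

/-- the list of monogenic cases -/
def Ok (a : ℤ) (d : ℕ) : Prop :=
  a = 1 ∨ (a = -1 ∧ d % 4 ≠ 2) ∨ d = 2 ∨ (d = 3 ∧ Q a) ∨ (d = 4 ∧ Q (2 * a)) ∨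
    (d = 6 ∧ Q (3 * a)) ∨ (d = 5 ∧ a = 5) ∨ (d = 12 ∧ (a = 2 ∨ a = 6))

theorem Dat.classify {a : ℤ} {d : ℕ} {w z t : A} (D : Dat a d w z t) (ha : a ≠ 0) :
    Cl t ↔ Ok a d := by
  have q2 : d = 2 → Cl t := by
    rintro rfl
    have h : w = -1 := by simpa using D.half (k := 1) rfl
    exact (quad (m := 0) (by rw [D.tt, h]; norm_num)).mpr (Or.inl IsSquare.zero)
  have q3 : d = 3 → (Cl t ↔ Q a) := by
    rintro rfl
    exact quad (by rw [D.tt, D.r3]; ring)
  have q4 : d = 4 → (Cl t ↔ Q (2 * a)) := by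
    rintro rfl
    exact quad (by rw [D.tt, D.r4]; push_cast; ring)
  have q6 : d = 6 → (Cl t ↔ Q (3 * a)) := by
    rintro rfl
    exact quad (by rw [D.tt, D.r6]; push_cast; ring)
  constructor
  · intro hc
    unfold Ok
    by_cases h2 : d = 2
    · exact .inr (.inr (.inl h2))
    by_cases h3 : d = 3
    · exact .inr (.inr (.inr (.inl ⟨h3, (q3 h3).mp hc⟩)))
    by_cases h4 : d = 4
    · exact .inr (.inr (.inr (.inr (.inl ⟨h4, (q4 h4).mp hc⟩))))
    by_cases h6 : d = 6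
    · exact .inr (.inr (.inr (.inr (.inr (.inl ⟨h6, (q6 h6).mp hc⟩)))))
    by_cases h1 : a = 1
    · exact Or.inl h1
    by_cases h1' : a = -1
    · subst h1'
      exact Or.inr (Or.inl ⟨rfl, (D.neg_one h2).mp hc⟩)
    have hab : 2 ≤ |a| := by rcases abs_cases a with h | h <;> omega
    by_cases h5 : d = 5
    · subst h5
      exact .inr (.inr (.inr (.inr (.inr (.inr (.inl ⟨rfl, D.five hab hc⟩))))))
    by_cases h12 : d = 12
    · subst h12
      exact .inr (.inr (.inr (.inr (.inr (.inr (.inr ⟨rfl, D.twelve hab hc⟩))))))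
    exfalso
    by_cases h10 : d = 10
    · subst h10
      exact D.ten hab hc
    by_cases h8 : 8 ∣ d
    · exact D.eight hab hc h8
    obtain ⟨m, hm, hd4, hmd⟩ : ∃ m, Odd m ∧ d ∣ 4 * m ∧ m ∣ d := by
      rcases Nat.even_or_odd' d with ⟨e, rfl | rfl⟩
      · rcases Nat.even_or_odd' e with ⟨g, rfl | rfl⟩
        · exact ⟨g, Nat.odd_iff.mpr (by omega), ⟨1, by ring⟩, ⟨4, by ring⟩⟩
        · exact ⟨_, ⟨g, rfl⟩, ⟨2, by ring⟩, ⟨2, by ring⟩⟩
      · exact ⟨_, ⟨e, rfl⟩, ⟨4, by ring⟩, dvd_rfl⟩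
    have hd2 := D.two
    have hm5 : 5 ≤ m := by
      by_contra hlt
      have h7 : d ∣ 12 := by
        obtain ⟨k, rfl⟩ := hm
        obtain rfl | rfl : k = 0 ∨ k = 1 := by omega
        · exact hd4.trans (by norm_num)
        · exact hd4
      have := Nat.le_of_dvd (by norm_num) h7
      interval_cases d <;> omega
    rcases Int.even_or_odd a with he | ho
    · exact D.even ha he hc hm hm5 hd4 hmd
    · refine D.odd hab ho hc hm hm5 hd4 hmd fun h7 => ?_
      have := Nat.le_of_dvd (by norm_num) h7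
      interval_cases d <;> omega
  · rintro (rfl | ⟨rfl, h⟩ | h | ⟨h, h'⟩ | ⟨h, h'⟩ | ⟨h, h'⟩ | ⟨rfl, rfl⟩ | ⟨rfl, rfl | rfl⟩)
    · exact D.one
    · exact (D.neg_one (by omega)).mpr h
    · exact q2 h
    · exact (q3 h).mpr h'
    · exact (q4 h).mpr h'
    · exact (q6 h).mpr h'
    · exact D.sporadic (by norm_num) 3 (by push_cast; linear_combination D.e5)
    · exact D.sporadic (by norm_num) 1 (by push_cast; linear_combination D.e12)
    · exact D.sporadic (by norm_num) 3 (by push_cast; linear_combination D.e12)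

theorem exists_dat (a : ℤ) {d : ℕ} (hd : 2 ≤ d) : ∃ w z t : A, Dat a d w z t := by
  have : NeZero d := ⟨by omega⟩
  obtain ⟨w, hw⟩ := HasEnoughRootsOfUnity.exists_primitiveRoot A d
  obtain ⟨z, hz⟩ := IsAlgClosed.exists_pow_nat_eq (a * w) two_pos
  exact ⟨w, z, _, hd, hw, by rw [← hz, pow_two], rfl⟩

theorem exists_poly {t : A} (ht : IsIntegral ℤ t) : ∃ f : ℤ[X], f.Monic ∧
    Irreducible (f.map (Int.castRingHom ℚ)) ∧ aeval t f = 0 := by
  refine ⟨minpoly ℤ t, minpoly.monic ht, ?_, minpoly.aeval ℤ t⟩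
  rw [← algebraMap_int_eq, ← minpoly.isIntegrallyClosed_eq_field_fractions' ℚ ht]
  exact minpoly.irreducible ht.tower_top

variable {a : ℤ} {t : A} (u : ℕ → A) (h0 : u 0 = 0) (h1 : u 1 = 1)
  (hrec : ∀ n, u (n + 2) = t * u (n + 1) - a * u n) (ha : a ≠ 0)
include h0 h1 hrec ha

theorem binet {z y : A} (hzy : z + y = t) (hzy' : z * y = a) (hne : z ≠ y) (n : ℕ) :
    u n = 0 ↔ (z / y) ^ n = 1 := by
  have ha' : (a : A) ≠ 0 := by exact_mod_cast ha
  have hy : y ≠ 0 := by rintro rfl; exact ha' (by rw [← hzy', mul_zero])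
  have hb : ∀ n, u n * (z - y) = z ^ n - y ^ n := by
    intro n
    induction n using Nat.twoStepInduction with
    | zero => simp [h0]
    | one => simp [h1]
    | more n i1 i2 =>
      rw [hrec, ← hzy, ← hzy']
      linear_combination (z + y) * i2 - z * y * i1
  rw [div_pow, div_eq_one_iff_eq (pow_ne_zero n hy), ← sub_eq_zero (a := z ^ n), ← hb,
    mul_eq_zero, or_iff_left (sub_ne_zero.mpr hne)]

theorem Dat.zero_iff {d : ℕ} {w z : A} (D : Dat a d w z t) (k : ℕ) : u k = 0 ↔ d ∣ k := by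
  have ha' : (a : A) ≠ 0 := by exact_mod_cast ha
  have hw := D.w0
  have hz : z ≠ 0 := by rintro rfl; exact mul_ne_zero ha' hw (by rw [← D.sq, zero_mul])
  rw [binet u h0 h1 hrec ha (z := z) (y := z * w⁻¹) (by rw [D.eq]; ring)
    (by linear_combination w⁻¹ * D.sq + (a : A) * D.ww) (fun h => D.w1 (by
      field_simp at h; exact h)), show z / (z * w⁻¹) = w by field_simp,
    D.prim.pow_eq_one_iff_dvd]

theorem dat_of_zero {n : ℕ} (hn : 0 < n) (hu : u n = 0) : ∃ d w z, Dat a d w z t := by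
  have ha' : (a : A) ≠ 0 := by exact_mod_cast ha
  obtain ⟨s, hs⟩ := IsAlgClosed.exists_pow_nat_eq (t ^ 2 - 4 * a) two_pos
  obtain ⟨z, y, hzy, hzy'⟩ : ∃ z y : A, z + y = t ∧ z * y = a :=
    ⟨(t + s) / 2, (t - s) / 2, by ring, by linear_combination -hs / 4⟩
  have hz : z ≠ 0 := by rintro rfl; exact ha' (by rw [← hzy', zero_mul])
  have hy : y ≠ 0 := by rintro rfl; exact ha' (by rw [← hzy', mul_zero])
  have hne : z ≠ y := by
    rintro rfl
    have hp : ∀ n, u n * z = n * z ^ n := by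
      intro n
      induction n using Nat.twoStepInduction with
      | zero => simp [h0]
      | one => simp [h1]
      | more n i1 i2 =>
        rw [hrec, ← hzy, ← hzy']
        push_cast at i2 ⊢
        linear_combination (z + z) * i2 - z * z * i1
    have := hp n
    rw [hu, zero_mul] at this
    exact mul_ne_zero (Nat.cast_ne_zero.mpr hn.ne') (pow_ne_zero n hz) this.symm
  have h2 := ord_pos hn ((binet u h0 h1 hrec ha hzy hzy' hne n).mp hu)
  have h3 : orderOf (z / y) ≠ 1 := fun h => hne ((div_eq_one_iff_eq hy).mp (orderOf_eq_one_iff.mp h))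
  refine ⟨orderOf (z / y), z / y, z, by omega, IsPrimitiveRoot.orderOf _, ?_, ?_⟩
  · rw [← hzy']; field_simp
  · rw [← hzy]; field_simp

end Pool.Agent.Lib.MP_b164a8_nt.DK
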