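import Pool.Agent.Lib.MP_b164a8_nt.DK.Lem

/-! The numbers `z (1 + w⁻¹)` with `z ^ 2 = a w`, `w` a root of unity: units and small orders. -/

set_option autoImplicit false

open Polynomial

namespace Pool.Agent.Lib.MP_b164a8_nt.DK

variable {A : Type} [Field A] [CharZero A]

/-- the data: `w` of order `d ≥ 2`, `z ^ 2 = a w`, `t = z + a / z` -/
structure Dat (a : ℤ) (d : ℕ) (w z t : A) : Prop where
  two : 2 ≤ d
  prim : IsPrimitiveRoot w d
  sq : z * z = a * w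
  eq : t = z * (1 + w⁻¹)

namespace Dat

variable {a : ℤ} {d : ℕ} {w z t : A} (D : Dat a d w z t)
include D

theorem pos : 0 < d := by have := D.two; omega

theorem w0 : w ≠ 0 := D.prim.ne_zero D.pos.ne'

theorem ww : w * w⁻¹ = 1 := mul_inv_cancel₀ D.w0

theorem iw : IsIntegral ℤ w := D.prim.isIntegral D.pos

theorem iw' : IsIntegral ℤ w⁻¹ := D.prim.inv.isIntegral D.pos

theorem ie : IsIntegral ℤ (w + w⁻¹) := D.iw.add D.iw'

theorem iz : IsIntegral ℤ z :=
  IsIntegral.of_pow two_pos (by rw [pow_two, D.sq]; exact (int_int a).mul D.iw)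

theorem it : IsIntegral ℤ t := D.eq ▸ D.iz.mul (isIntegral_one.add D.iw')

theorem tt : t * t = a * (w + w⁻¹ + 2) := by
  rw [D.eq]
  linear_combination (1 + w⁻¹) ^ 2 * D.sq + (a : A) * (2 + w⁻¹) * D.ww

theorem ne1 {k : ℕ} (h : ¬ d ∣ k) : w ^ k ≠ 1 := fun h' => h (D.prim.dvd_of_pow_eq_one k h')

theorem w1 : w ≠ 1 := D.prim.ne_one D.two

theorem odd_neg {l : ℕ} (hl : Odd l) (h : w ^ l = -1) : d % 4 = 2 := by
  obtain ⟨c, hc⟩ := D.prim.dvd_of_pow_eq_one (l * 2) (by rw [pow_mul, h]; norm_num)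
  have h2 : ¬ d ∣ l := fun h' => by
    rw [(D.prim.pow_eq_one_iff_dvd l).mpr h'] at h
    norm_num at h
  obtain ⟨k, hk⟩ := hl
  rcases Nat.even_or_odd' c with ⟨c', rfl | rfl⟩
  · exact absurd ⟨c', by linarith⟩ h2
  · have h3 : d * (2 * c' + 1) = 2 * (d * c') + d := by ring
    obtain ⟨e, rfl⟩ : ∃ e, d = 2 * e := ⟨d / 2, by omega⟩
    have h4 : 2 * e * c' = 2 * (e * c') := by ring
    omega

theorem half {k : ℕ} (h : d = 2 * k) : w ^ k = -1 := by
  have h1 : w ^ k * w ^ k = 1 := by rw [← pow_add, ← two_mul, ← h, D.prim.pow_eq_one]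
  refine (mul_self_eq_one_iff.mp h1).resolve_left (D.ne1 fun h2 => ?_)
  have := D.two
  have := Nat.le_of_dvd (by omega) h2
  omega

theorem t0 (ha : a ≠ 0) (h : d ≠ 2) : t ≠ 0 := by
  intro h0
  have h1 := D.tt
  rw [h0, zero_mul] at h1
  have ha' : (a : A) ≠ 0 := by exact_mod_cast ha
  have h2 := (mul_eq_zero.mp h1.symm).resolve_left ha'
  have h3 : (w + 1) ^ 2 = 0 := by linear_combination w * h2 - D.ww
  have h4 : w = -1 := eq_neg_of_add_eq_zero_left (pow_eq_zero_iff two_ne_zero |>.mp h3)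
  have := Nat.le_of_dvd two_pos (D.prim.dvd_of_pow_eq_one 2 (by rw [h4]; norm_num))
  have := D.two
  omega

end Dat

section
variable [IsAlgClosed A] [Algebra.IsAlgebraic ℚ A] {a : ℤ} {d : ℕ} {w z t : A}

theorem ord_pos {z : A} {n : ℕ} (hn : 0 < n) (h : z ^ n = 1) : 0 < orderOf z := by
  rw [orderOf_pos_iff]; exact isOfFinOrder_iff_pow_eq_one.mpr ⟨n, hn, h⟩

theorem cl_eta {z : A} {n : ℕ} (hn : 0 < n) (h : z ^ n = 1) (h2 : z ^ 2 ≠ 1) : Cl (z + z⁻¹) := by
  have h0 : z ≠ 0 := by rintro rfl; simp [hn.ne'] at h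
  refine good (a := 1) (ord_pos hn h) (IsPrimitiveRoot.orderOf z) (IsPrimitiveRoot.orderOf z).inv
    (by simp [h0]) fun h3 => h2 ?_
  rw [pow_two]
  nth_rewrite 2 [h3]
  exact mul_inv_cancel₀ h0

theorem Dat.one (D : Dat 1 d w z t) : Cl t := by
  have h1 : z ^ 2 = w := by simpa [pow_two] using D.sq
  have h0 : z ≠ 0 := by rintro rfl; exact D.w0 (by simp [← h1])
  have : t = z + z⁻¹ := by rw [D.eq, ← h1]; field_simp
  rw [this]
  refine cl_eta (n := 2 * d) (by have := D.pos; omega) ?_ (h1 ▸ D.w1)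
  rw [pow_mul, h1, D.prim.pow_eq_one]

theorem Dat.neg_one (D : Dat (-1) d w z t) (hd : d ≠ 2) : Cl t ↔ d % 4 ≠ 2 := by
  have h1 : w = -z ^ 2 := by have := D.sq; push_cast at this; linear_combination this
  have h0 : z ≠ 0 := by rintro rfl; exact D.w0 (by simp [h1])
  have ht : t = z + -z⁻¹ := by rw [D.eq, h1]; field_simp
  have hp := D.pos
  have h4 : z ^ (4 * d) = 1 := by
    have : z ^ 4 = w ^ 2 := by rw [h1]; ring
    rw [pow_mul, this, ← pow_mul, mul_comm, pow_mul, D.prim.pow_eq_one, one_pow]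
  have hM := ord_pos (by omega) h4
  have hz := IsPrimitiveRoot.orderOf z
  have hodd : ∀ l, Odd l → w ^ l = -(z ^ l) ^ 2 := fun l hl => by
    rw [h1, hl.neg_pow, ← pow_mul, ← pow_mul, mul_comm]
  constructor
  · intro hc h2
    obtain ⟨k, hk⟩ : ∃ k, d = 2 * (2 * k + 1) := ⟨d / 4, by omega⟩
    have hk' : Odd (2 * k + 1) := ⟨k, rfl⟩
    have h5 : z ^ (2 * k + 1) * z ^ (2 * k + 1) = 1 := by
      linear_combination hodd _ hk' - D.half hk
    have h6 : z ∈ Algebra.adjoin ℤ {t} := hc z D.iz fun ρ hρ => by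
      have h7 : ρ z ≠ 0 := by simpa using h0
      have h8 : (ρ z - z) * (ρ z + z⁻¹) = 0 := by
        rw [ht, map_add, map_neg, map_inv₀] at hρ
        linear_combination (ρ z) * hρ + mul_inv_cancel₀ h7 - mul_inv_cancel₀ h0
      refine sub_eq_zero.mp ((mul_eq_zero.mp h8).resolve_right fun h9 => ?_)
      have h10 : ρ (z ^ (2 * k + 1)) = -(z ^ (2 * k + 1))⁻¹ := by
        rw [map_pow, eq_neg_of_add_eq_zero_left h9, hk'.neg_pow, inv_pow]
      rcases mul_self_eq_one_iff.mp h5 with h | h <;> rw [h] at h10 <;> norm_num at h10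
    obtain ⟨σ, hσ⟩ := exists_aut hM hz hz.inv
    obtain ⟨c, hci, hcc⟩ := sub_dv D.it h6 AlgEquiv.refl σ
    have h7 : σ t = -t := by rw [ht, map_add, map_neg, map_inv₀, hσ, inv_inv]; ring
    rw [hσ, h7] at hcc
    change z - _ = (t - _) * c at hcc
    refine not_dv_two (A := A) ⟨c, hci, mul_left_cancel₀ (D.t0 (by norm_num) hd) ?_⟩
    linear_combination hcc + ht
  · intro h2
    have h5 : ∀ l, Odd l → (z ^ l) ^ 2 ≠ 1 := fun l hl h => h2 (D.odd_neg hl (by rw [hodd l hl, h]))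
    rw [ht]
    refine good (a := -1) hM hz ⟨?_, fun l hl => ?_⟩ (by simp [h0]) fun h => D.w1 ?_
    · rcases Nat.even_or_odd (orderOf z) with h | h
      · rw [h.neg_pow, inv_pow, pow_orderOf_eq_one, inv_one]
      · exact absurd (by rw [pow_orderOf_eq_one, one_pow]) (h5 _ h)
    · rcases Nat.even_or_odd l with h | h
      · rw [h.neg_pow, inv_pow, inv_eq_one] at hl
        exact orderOf_dvd_of_pow_eq_one hl
      · rw [h.neg_pow, inv_pow, neg_eq_iff_eq_neg, inv_eq_iff_eq_inv] at hl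
        exact absurd (by rw [hl]; norm_num) (h5 l h)
    · rw [h1, pow_two]
      nth_rewrite 2 [h]
      simp [h0]

theorem Dat.r3 (D : Dat a 3 w z t) : w + w⁻¹ = -1 := by
  have h : (w - 1) * (w ^ 2 + w + 1) = 0 := by linear_combination D.prim.pow_eq_one
  have h1 := (mul_eq_zero.mp h).resolve_left (sub_ne_zero.mpr D.w1)
  linear_combination w⁻¹ * h1 - (w + 1) * D.ww

theorem Dat.r4 (D : Dat a 4 w z t) : w + w⁻¹ = 0 := by
  linear_combination w⁻¹ * D.half (k := 2) rfl - w * D.ww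

theorem Dat.r6 (D : Dat a 6 w z t) : w + w⁻¹ = 1 := by
  have h : (w + 1) * (w ^ 2 - w + 1) = 0 := by linear_combination D.half (k := 3) rfl
  have h1 := (mul_eq_zero.mp h).resolve_left fun h2 =>
    D.ne1 (k := 2) (by norm_num) (by linear_combination (w - 1) * h2)
  linear_combination w⁻¹ * h1 - (w - 1) * D.ww

theorem Dat.r5 (D : Dat a 5 w z t) : w ^ 4 + w ^ 3 + w ^ 2 + w + 1 = 0 := by
  have h : (w - 1) * (w ^ 4 + w ^ 3 + w ^ 2 + w + 1) = 0 := by
    linear_combination D.prim.pow_eq_one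
  exact (mul_eq_zero.mp h).resolve_left (sub_ne_zero.mpr D.w1)

theorem Dat.r10 (D : Dat a 10 w z t) : w ^ 4 - w ^ 3 + w ^ 2 - w + 1 = 0 := by
  have h : (w + 1) * (w ^ 4 - w ^ 3 + w ^ 2 - w + 1) = 0 := by
    linear_combination D.half (k := 5) rfl
  exact (mul_eq_zero.mp h).resolve_left fun h2 =>
    D.ne1 (k := 2) (by norm_num) (by linear_combination (w - 1) * h2)

theorem Dat.r12 (D : Dat a 12 w z t) : w ^ 4 - w ^ 2 + 1 = 0 := by
  have h : (w ^ 2 + 1) * (w ^ 4 - w ^ 2 + 1) = 0 := by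
    linear_combination D.half (k := 6) rfl
  exact (mul_eq_zero.mp h).resolve_left fun h2 =>
    D.ne1 (k := 4) (by norm_num) (by linear_combination (w ^ 2 - 1) * h2)

theorem Dat.e5 (D : Dat a 5 w z t) : (w + w⁻¹) ^ 2 = 1 - (w + w⁻¹) := by
  linear_combination (w⁻¹) ^ 2 * D.r5 - ((w ^ 2 + w) * (w * w⁻¹ + 1) + w * w⁻¹ - 1 + w⁻¹) * D.ww

theorem Dat.e12 (D : Dat a 12 w z t) : (w + w⁻¹) ^ 2 = 3 := by
  linear_combination (w⁻¹) ^ 2 * D.r12 - ((w ^ 2 - 1) * (w * w⁻¹ + 1) - 2) * D.ww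

theorem Dat.sporadic (D : Dat a d w z t) (h2 : ¬ d ∣ 2) (k : ℤ)
    (h : (w + w⁻¹ + k) * (w + w⁻¹ + k) = a * (w + w⁻¹ + 2)) : Cl t := by
  have hc := cl_eta D.pos D.prim.pow_eq_one (D.ne1 h2)
  rcases mul_self_eq_mul_self_iff.mp (D.tt.trans h.symm) with h1 | h1
  · refine hc.of_mem ?_ (h1 ▸ add_mem (self_mem _) (intCast_mem _ k))
    rw [show w + w⁻¹ = t - k by rw [h1]; ring]
    exact sub_mem (self_mem _) (intCast_mem _ k)
  · refine hc.of_mem ?_ (h1 ▸ neg_mem (add_mem (self_mem _) (intCast_mem _ k)))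
    rw [show w + w⁻¹ = -t - k by rw [h1]; ring]
    exact sub_mem (neg_mem (self_mem _)) (intCast_mem _ k)

end

end Pool.Agent.Lib.MP_b164a8_nt.DK
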